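import Pool.Agent.W23.SG.All

/-!
Level of distribution `5/9` for arbitrary functions on the primes.

For EVERY bounded function `f` on the primes up to `N` (in particular for every set of primes, also
a sparse one) and every set of residues `a ∈ [-N, N]`, a Bessel inequality over the residues for the
sum of the ABSOLUTE VALUES of the discrepancies of `f` in the class `a` modulo `d`, over the rough
moduli `d ≤ N^θ`, every `θ < 5/9` (the moduli above `N^(51/100)` have to be factorable).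
Consequently the primes of any set `P` with `|P| ≥ N^(1-η)` are equidistributed on average over
these moduli in the class `a`, for all but `C N / (κ² |P| log N)` residues `a` (a bounded number if
`P` has positive relative density).
-/

set_option autoImplicit false

namespace Pool.Agent.Results.MP_a78e8f_nt.ArbitrarySetsFiveNinths

open Finset

/-- `S(f; N, d, a) - S(f; N)/φ(d)`, where `S(f; N)` is the sum of `f` over the primes `p ≤ N` and
`S(f; N, d, a)` the sum over the primes `p ≤ N` with `p ≡ a (mod d)`. -/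
noncomputable def disc (f : ℕ → ℝ) (N : ℕ) (a : ℤ) (d : ℕ) : ℝ :=
  (∑ p ∈ (Icc 1 N).filter (fun p : ℕ => p.Prime ∧ (p : ℤ) ≡ a [ZMOD d]), f p) -
    (∑ p ∈ (Icc 1 N).filter Nat.Prime, f p) / (Nat.totient d : ℝ)

/-- squarefree `d` with a divisor `s`, `d² N^(δ-1) ≤ s ≤ N^(4-δ) d^(-7)` -/
def Factorable (N : ℕ) (δ : ℝ) (d : ℕ) : Prop :=
  Squarefree d ∧ ∃ s : ℕ, s ∣ d ∧ (d : ℝ) ^ 2 * (N : ℝ) ^ (δ - 1) ≤ s ∧
    (s : ℝ) * (d : ℝ) ^ 7 ≤ (N : ℝ) ^ (4 - δ)

open Classical in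
/-- the moduli `1 < d ≤ N^θ` all of whose prime factors exceed `N^ε`, and which are factorable if
they exceed `N^(51/100)` -/
noncomputable def moduli (N : ℕ) (θ ε δ : ℝ) : Finset ℕ :=
  (Icc 1 ⌊(N : ℝ) ^ θ⌋₊).filter (fun d : ℕ =>
    1 < d ∧ (∀ p : ℕ, p.Prime → p ∣ d → (N : ℝ) ^ ε < (p : ℝ)) ∧
      ((d : ℝ) ≤ (N : ℝ) ^ (51 / 100 : ℝ) ∨ Factorable N δ d))

theorem moduli_eq (N : ℕ) (θ ε δ : ℝ) :
    moduli N θ ε δ = Pool.Agent.W23.DC.facR N θ ε δ := by
  classical
  ext d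
  unfold moduli Pool.Agent.W23.DC.facR Pool.Agent.H442R2.BX.roughs
  unfold Pool.Agent.H442R2.BX.Rough Factorable Pool.Agent.W23.DC.FacO
  simp only [Finset.mem_filter]
  tauto

/-- the number of `p ∈ P` with `p ≡ a (mod d)`, minus `|P|/φ(d)` -/
noncomputable def dev (P : Finset ℕ) (a : ℤ) (d : ℕ) : ℝ :=
  ((P.filter (fun p : ℕ => (p : ℤ) ≡ a [ZMOD d])).card : ℝ) - (P.card : ℝ) / (Nat.totient d : ℝ)

theorem disc_ind (P : Finset ℕ) (N : ℕ) (hP : ∀ p ∈ P, p.Prime ∧ p ≤ N) (a : ℤ) (d : ℕ) :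
    disc (fun p => if p ∈ P then 1 else 0) N a d = dev P a d := by
  classical
  have h1 : ((Icc 1 N).filter (fun p : ℕ => p.Prime ∧ (p : ℤ) ≡ a [ZMOD d])).filter (· ∈ P) =
      P.filter (fun p : ℕ => (p : ℤ) ≡ a [ZMOD d]) := by
    ext p
    simp only [Finset.mem_filter, Finset.mem_Icc]
    constructor
    · rintro ⟨⟨_, _, h⟩, hp⟩
      exact ⟨hp, h⟩
    · rintro ⟨hp, h⟩
      exact ⟨⟨⟨(hP p hp).1.one_lt.le, (hP p hp).2⟩, (hP p hp).1, h⟩, hp⟩
  have h2 : ((Icc 1 N).filter Nat.Prime).filter (· ∈ P) = P := by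
    ext p
    simp only [Finset.mem_filter, Finset.mem_Icc]
    constructor
    · rintro ⟨_, hp⟩
      exact hp
    · intro hp
      exact ⟨⟨⟨(hP p hp).1.one_lt.le, (hP p hp).2⟩, (hP p hp).1⟩, hp⟩
  unfold disc dev
  rw [← Finset.sum_filter, ← Finset.sum_filter, h1, h2]
  simp

theorem Q2_ind (P : Finset ℕ) (N : ℕ) (hP : ∀ p ∈ P, p.Prime ∧ p ≤ N) :
    ∑ p ∈ (Icc 1 N).filter Nat.Prime, (if p ∈ P then (1 : ℝ) else 0) ^ 2 = P.card := by
  classical
  have h2 : ((Icc 1 N).filter Nat.Prime).filter (· ∈ P) = P := by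
    ext p
    simp only [Finset.mem_filter, Finset.mem_Icc]
    constructor
    · rintro ⟨_, hp⟩
      exact hp
    · intro hp
      exact ⟨⟨⟨(hP p hp).1.one_lt.le, (hP p hp).2⟩, (hP p hp).1⟩, hp⟩
  have h3 : ∀ p ∈ (Icc 1 N).filter Nat.Prime, (if p ∈ P then (1 : ℝ) else 0) ^ 2 =
      if p ∈ P then 1 else 0 := by
    intro p _
    split_ifs <;> simp
  rw [Finset.sum_congr rfl h3, ← Finset.sum_filter, h2]
  simp

/-- **Level `5/9` for arbitrary functions and arbitrary sets of primes, few exceptional residues** -/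
theorem result (θ δ ε : ℝ) (hθ : θ < 5 / 9) (hδ : 0 < δ) (hε : 0 < ε) :
    ∃ (η C : ℝ), 0 < η ∧ 0 < C ∧
    (∀ N : ℕ, 2 ≤ N → ∀ f : ℕ → ℝ, (∀ p, |f p| ≤ 1) → ∀ A : Finset ℤ, (∀ a ∈ A, |(a : ℝ)| ≤ N) →
      ∑ a ∈ A, (∑ d ∈ moduli N θ ε δ, |disc f N a d|) ^ 2 ≤
        C * ((∑ p ∈ (Icc 1 N).filter Nat.Prime, f p ^ 2) * (N / Real.log N) +
          A.card * (N : ℝ) ^ (2 - η))) ∧
    (∀ N : ℕ, 2 ≤ N → ∀ P : Finset ℕ, (∀ p ∈ P, p.Prime ∧ p ≤ N) → ∀ κ : ℝ, 0 < κ → κ ≤ 1 →
      (N : ℝ) ^ (1 - η) ≤ κ * P.card →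
      (((Icc (-(N : ℤ)) N).filter (fun a : ℤ =>
        κ * P.card < ∑ d ∈ moduli N θ ε δ, |dev P a d|)).card : ℝ) ≤
          C * (N / (κ ^ 2 * P.card * Real.log N))) := by
  classical
  obtain ⟨η₀, C₀, hη₀, hC₀, H⟩ := Pool.Agent.W23.SG.FIF2_thm θ δ ε hθ hδ hε
  -- threshold
  obtain ⟨N₁, hN₁⟩ : ∃ N₁ : ℕ, ∀ N : ℕ, N₁ ≤ N → 2 * C₀ ≤ (N : ℝ) ^ (η₀ / 2) := by
    have ht := (tendsto_rpow_atTop (by positivity : (0 : ℝ) < η₀ / 2)).comp
      (tendsto_natCast_atTop_atTop (R := ℝ))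
    obtain ⟨N₁, h⟩ := Filter.eventually_atTop.1 (ht.eventually_ge_atTop (2 * C₀))
    exact ⟨N₁, fun N hN => h N hN⟩
  have key : ∀ N : ℕ, 2 ≤ N → ∀ f : ℕ → ℝ, (∀ p, |f p| ≤ 1) → ∀ A : Finset ℤ,
      (∀ a ∈ A, |(a : ℝ)| ≤ N) →
      ∑ a ∈ A, (∑ d ∈ moduli N θ ε δ, |disc f N a d|) ^ 2 ≤
        C₀ * ((∑ p ∈ (Icc 1 N).filter Nat.Prime, f p ^ 2) * (N / Real.log N) +
          A.card * (N : ℝ) ^ (2 - η₀)) := by
    intro N hN f hf A hA
    rw [moduli_eq]
    exact H N hN f hf A hA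
  set M : ℕ := max N₁ 2 with hM
  have hM2 : (2 : ℝ) ≤ M := by exact_mod_cast le_max_right _ _
  have hlogM : 0 < Real.log M := Real.log_pos (by linarith)
  set C : ℝ := 2 * C₀ + (2 * M + 1) * Real.log M with hC
  have hCpos : 0 < C := by positivity
  refine ⟨η₀ / 4, C, by positivity, hCpos, ?_, ?_⟩
  · intro N hN f hf A hA
    refine (key N hN f hf A hA).trans ?_
    have hN1 : (1 : ℝ) ≤ N := by exact_mod_cast (by omega : 1 ≤ N)
    have hlog : 0 < Real.log N := Real.log_pos (by exact_mod_cast (by omega : 1 < N))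
    have h1 : (N : ℝ) ^ (2 - η₀) ≤ (N : ℝ) ^ (2 - η₀ / 4) :=
      Real.rpow_le_rpow_of_exponent_le hN1 (by linarith)
    have h2 : 0 ≤ (∑ p ∈ (Icc 1 N).filter Nat.Prime, f p ^ 2) * (N / Real.log N) := by
      have : 0 ≤ ∑ p ∈ (Icc 1 N).filter Nat.Prime, f p ^ 2 :=
        Finset.sum_nonneg fun _ _ => sq_nonneg _
      positivity
    have h3 : C₀ ≤ C := by
      rw [hC]
      have : 0 ≤ (2 * (M : ℝ) + 1) * Real.log M := by positivity
      linarith
    calc C₀ * ((∑ p ∈ (Icc 1 N).filter Nat.Prime, f p ^ 2) * (N / Real.log N) +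
          A.card * (N : ℝ) ^ (2 - η₀))
        ≤ C₀ * ((∑ p ∈ (Icc 1 N).filter Nat.Prime, f p ^ 2) * (N / Real.log N) +
          A.card * (N : ℝ) ^ (2 - η₀ / 4)) := by gcongr
      _ ≤ _ := by
          have h4 : 0 ≤ (A.card : ℝ) * (N : ℝ) ^ (2 - η₀ / 4) := by positivity
          exact mul_le_mul_of_nonneg_right h3 (by linarith)
  · intro N hN P hP κ hκ hκ1 hbig
    have hN1 : (1 : ℝ) ≤ N := by exact_mod_cast (by omega : 1 ≤ N)
    have hN0 : (0 : ℝ) < N := by linarith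
    have hlog : 0 < Real.log N := Real.log_pos (by exact_mod_cast (by omega : 1 < N))
    have hKP : 0 < κ * P.card := lt_of_lt_of_le (Real.rpow_pos_of_pos hN0 _) hbig
    have hPc : (0 : ℝ) < P.card := by
      by_contra hcon
      have : (P.card : ℝ) ≤ 0 := not_lt.1 hcon
      nlinarith
    have hPN : (P.card : ℝ) ≤ N := by
      have h1 : P ⊆ Icc 1 N := fun p hp => Finset.mem_Icc.2 ⟨(hP p hp).1.one_lt.le, (hP p hp).2⟩
      have h2 := Finset.card_le_card h1
      rw [Nat.card_Icc] at h2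
      exact_mod_cast (by omega : P.card ≤ N)
    set E : Finset ℤ := (Icc (-(N : ℤ)) N).filter (fun a : ℤ =>
        κ * P.card < ∑ d ∈ moduli N θ ε δ, |dev P a d|) with hE
    set R : ℝ := N / (κ ^ 2 * P.card * Real.log N) with hR
    have hRpos : 0 < R := by positivity
    rcases Nat.lt_or_ge N N₁ with hlt | hge
    · -- small `N`
      have h1 : (E.card : ℝ) ≤ 2 * M + 1 := by
        have h2 : E.card ≤ (Icc (-(N : ℤ)) N).card := Finset.card_filter_le _ _
        rw [Int.card_Icc] at h2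
        have h3 : E.card ≤ 2 * M + 1 := by
          have : N ≤ M := hlt.le.trans (le_max_left _ _)
          omega
        exact_mod_cast h3
      have h2 : 1 / Real.log M ≤ R := by
        have h3 : κ ^ 2 * P.card * Real.log N ≤ 1 * N * Real.log M := by
          have h4 : κ ^ 2 ≤ 1 := by nlinarith
          have h5 : Real.log N ≤ Real.log M := Real.log_le_log hN0 (by
            exact_mod_cast hlt.le.trans (le_max_left _ _))
          have h6 : κ ^ 2 * P.card ≤ 1 * N := mul_le_mul h4 hPN hPc.le zero_le_one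
          exact mul_le_mul h6 h5 hlog.le (by linarith)
        rw [hR, div_le_div_iff₀ hlogM (by positivity)]
        linarith
      calc (E.card : ℝ) ≤ 2 * M + 1 := h1
        _ = (2 * M + 1) * Real.log M * (1 / Real.log M) := by field_simp
        _ ≤ (2 * M + 1) * Real.log M * R := by gcongr
        _ ≤ C * R := by
            apply mul_le_mul_of_nonneg_right _ hRpos.le
            rw [hC]
            linarith
    · -- large `N`
      have hk := key N hN (fun p => if p ∈ P then 1 else 0) (fun p => by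
        split_ifs <;> simp) E (fun a ha => by
          have h1 := (Finset.mem_filter.1 ha).1
          rw [Finset.mem_Icc] at h1
          rw [abs_le]
          constructor
          · exact_mod_cast h1.1
          · exact_mod_cast h1.2)
      rw [Q2_ind P N hP] at hk
      have h1 : (E.card : ℝ) * (κ * P.card) ^ 2 ≤
          ∑ a ∈ E, (∑ d ∈ moduli N θ ε δ,
            |disc (fun p => if p ∈ P then 1 else 0) N a d|) ^ 2 := by
        rw [← nsmul_eq_mul]
        refine Finset.card_nsmul_le_sum _ _ _ fun a ha => ?_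
        have h2 := (Finset.mem_filter.1 ha).2
        have h3 : ∑ d ∈ moduli N θ ε δ, |disc (fun p => if p ∈ P then 1 else 0) N a d| =
            ∑ d ∈ moduli N θ ε δ, |dev P a d| :=
          Finset.sum_congr rfl fun d _ => by rw [disc_ind P N hP]
        rw [h3]
        exact pow_le_pow_left₀ hKP.le h2.le 2
      have h4 : C₀ * (N : ℝ) ^ (2 - η₀) ≤ (κ * P.card) ^ 2 / 2 := by
        have h5 : (N : ℝ) ^ (2 - η₀ / 2) ≤ (κ * P.card) ^ 2 := by
          have h6 : ((N : ℝ) ^ (1 - η₀ / 4)) ^ 2 = (N : ℝ) ^ (2 - η₀ / 2) := by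
            rw [← Real.rpow_natCast, ← Real.rpow_mul hN0.le]
            congr 1
            push_cast
            ring
          rw [← h6]
          exact pow_le_pow_left₀ (by positivity) hbig 2
        have h7 : (N : ℝ) ^ (2 - η₀ / 2) = (N : ℝ) ^ (η₀ / 2) * (N : ℝ) ^ (2 - η₀) := by
          rw [← Real.rpow_add hN0]
          congr 1
          ring
        have h8 : 2 * C₀ * (N : ℝ) ^ (2 - η₀) ≤ (N : ℝ) ^ (η₀ / 2) * (N : ℝ) ^ (2 - η₀) :=
          mul_le_mul_of_nonneg_right (hN₁ N hge) (by positivity)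
        linarith
      have h9 : (E.card : ℝ) * (κ * P.card) ^ 2 ≤
          C₀ * (P.card * (N / Real.log N)) + E.card * ((κ * P.card) ^ 2 / 2) := by
        refine (h1.trans hk).trans ?_
        have h10 : (E.card : ℝ) * (C₀ * (N : ℝ) ^ (2 - η₀)) ≤ E.card * ((κ * P.card) ^ 2 / 2) :=
          mul_le_mul_of_nonneg_left h4 (Nat.cast_nonneg _)
        nlinarith
      have h11 : (E.card : ℝ) * (κ * P.card) ^ 2 ≤ 2 * C₀ * (P.card * (N / Real.log N)) := by
        nlinarith
      have h12 : (E.card : ℝ) ≤ 2 * C₀ * R := by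
        have h13 : 0 < (κ * (P.card : ℝ)) ^ 2 := by positivity
        have h14 : 2 * C₀ * R * (κ * P.card) ^ 2 = 2 * C₀ * (P.card * (N / Real.log N)) := by
          rw [hR]
          field_simp
        by_contra hcon
        push Not at hcon
        have := mul_lt_mul_of_pos_right hcon h13
        linarith
      refine h12.trans (mul_le_mul_of_nonneg_right ?_ hRpos.le)
      rw [hC]
      have : 0 ≤ (2 * (M : ℝ) + 1) * Real.log M := by positivity
      linarith

end Pool.Agent.Results.MP_a78e8f_nt.ArbitrarySetsFiveNinths
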