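import Pool.Agent.W123.CE.Arith

set_option autoImplicit false

/-!
# Elliott-Halberstam along divisor chains

A chain `q 0 ∣ q 1 ∣ ... ∣ q R` of moduli up to `y ^ (1 - ε)` is cut into consecutive blocks. In all
but a bounded number of blocks (at most `7744 / (ε ^ 2 * δ ^ 3)`, whatever the chain, its length and
the number of blocks), the primes in `(x, x + y]` pass from the first modulus of the block to all the
further moduli of the block with asymptotic equidistribution in almost all residue classes.
-/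

namespace Pool.Agent.Results.MP_a78e8f_nt.DivisorChains

open Finset Filter Pool.Agent.W123

/-- The number of primes `p` with `x < p ≤ x + y` and `p ≡ a` modulo `q`. -/
def primesIn (x y q a : ℕ) : ℕ :=
  ((Finset.Ioc x (x + y)).filter (fun p => p.Prime ∧ p % q = a % q)).card

open Classical in
/-- **Equidistribution along divisor chains, up to level `1 - ε`.** -/
theorem result (ε δ : ℝ) (hε : 0 < ε) (hδ : 0 < δ) :
    ∃ y₀ : ℕ, ∀ x y : ℕ, y₀ ≤ y → ∀ (R : ℕ) (q : ℕ → ℕ), 0 < q R →
      (∀ i < R, q i ∣ q (i + 1)) → (q R : ℝ) ≤ (y : ℝ) ^ (1 - ε) →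
      ∀ (m : ℕ) (t : ℕ → ℕ), (∀ j < m, t j ≤ t (j + 1)) → t m ≤ R →
      (((Finset.range m).filter (fun j =>
        δ * ((q R).totient : ℝ) <
          (((Finset.range (q R)).filter (fun a => a.Coprime (q R) ∧
            ∃ i, t j ≤ i ∧ i ≤ t (j + 1) ∧
              δ * ((y : ℝ) / Real.log y) <
                |((q i).totient : ℝ) * (primesIn x y (q i) a : ℝ) -
                  ((q (t j)).totient : ℝ) * (primesIn x y (q (t j)) a : ℝ)|)).card : ℝ))).card : ℝ) ≤
        7744 / (ε ^ 2 * δ ^ 3) := by
  have hev : ∀ᶠ y : ℝ in atTop, ‖Real.log y ^ (2 : ℝ)‖ ≤ (δ / 8) * ‖y ^ ε‖ :=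
    (isLittleO_log_rpow_rpow_atTop 2 hε).bound (by positivity)
  obtain ⟨Y, hY⟩ := eventually_atTop.1 hev
  refine ⟨max 2 ⌈Y⌉₊, ?_⟩
  intro x y hy R q hqR hdiv hqy m t ht htm
  have hy2 : 2 ≤ y := (le_max_left _ _).trans hy
  have hyY : Y ≤ (y : ℝ) := (Nat.le_ceil Y).trans (by exact_mod_cast (le_max_right _ _).trans hy)
  have hy2r : (2 : ℝ) ≤ y := by exact_mod_cast hy2
  have hy0 : (0 : ℝ) < y := by linarith
  have hlog : 0 < Real.log y := Real.log_pos (by linarith)
  have hsmall : Real.log y ^ 2 ≤ (δ / 8) * (y : ℝ) ^ ε := by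
    have h := hY y hyY
    rw [Real.norm_of_nonneg (by positivity), Real.norm_of_nonneg (by positivity)] at h
    have e : Real.log (y : ℝ) ^ (2 : ℝ) = Real.log y ^ 2 := by
      exact_mod_cast Real.rpow_natCast (Real.log y) 2
    rw [e] at h
    exact h
  set Q := q R with hQ
  set T : ℝ := (y : ℝ) / Real.log y with hT
  have hTpos : 0 < T := div_pos hy0 hlog
  -- divisibility
  have hdv : ∀ i j, i ≤ j → j ≤ R → q i ∣ q j := by
    intro i j hij hjR
    induction j, hij using Nat.le_induction with
    | base => exact dvd_rfl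
    | succ k hk ih => exact (ih (by omega)).trans (hdiv k (by omega))
  have hqpos : ∀ i ≤ R, 0 < q i := fun i hi => Nat.pos_of_dvd_of_pos (hdv i R hi le_rfl) hqR
  have hQle1 : (Q : ℝ) ≤ y := by
    refine hqy.trans ?_
    calc (y : ℝ) ^ (1 - ε) ≤ (y : ℝ) ^ (1 : ℝ) :=
          Real.rpow_le_rpow_of_exponent_le (by linarith) (by linarith)
      _ = y := Real.rpow_one _
  have hqle : ∀ i ≤ R, (q i : ℝ) ≤ (y : ℝ) ^ (1 - ε) := by
    intro i hi
    refine le_trans ?_ hqy
    exact_mod_cast Nat.le_of_dvd hqR (hdv i R hi le_rfl)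
  -- the martingale
  set f : ℕ → ℕ → ℝ := fun i a => ((q i).totient : ℝ) * (CE.cntc Q x y (q i) a : ℝ) / T with hf
  set B : Finset ℕ := (Finset.range m).filter (fun j =>
        δ * ((q R).totient : ℝ) <
          (((Finset.range (q R)).filter (fun a => a.Coprime (q R) ∧
            ∃ i, t j ≤ i ∧ i ≤ t (j + 1) ∧
              δ * ((y : ℝ) / Real.log y) <
                |((q i).totient : ℝ) * (primesIn x y (q i) a : ℝ) -
                  ((q (t j)).totient : ℝ) * (primesIn x y (q (t j)) a : ℝ)|)).card : ℝ)) with hB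
  have htR : ∀ j ≤ m, t j ≤ R := by
    intro j hj
    have : ∀ d, ∀ j, j + d = m → t j ≤ t m := by
      intro d
      induction d with
      | zero => intro j hj; simp at hj; rw [hj]
      | succ d ih =>
        intro j hj
        exact (ht j (by omega)).trans (ih (j + 1) (by omega))
    exact (this (m - j) j (by omega)).trans htm
  have hcmp : ∀ i ≤ R, ∀ a, |((q i).totient : ℝ) * (primesIn x y (q i) a : ℝ) - T * f i a| ≤
      (δ / 4) * T := by
    intro i hi a
    have e1 : T * f i a = ((q i).totient : ℝ) * (CE.cntc Q x y (q i) a : ℝ) := by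
      simp only [hf]
      field_simp
    rw [e1, ← mul_sub]
    have h1 : CE.cntc Q x y (q i) a ≤ primesIn x y (q i) a := CE.cntc_le Q x y (q i) a
    have h2 : primesIn x y (q i) a ≤ CE.cntc Q x y (q i) a + Q.primeFactors.card :=
      CE.cnt_le Q x y (q i) a hqR
    have h1' : (CE.cntc Q x y (q i) a : ℝ) ≤ primesIn x y (q i) a := by exact_mod_cast h1
    have h2' : (primesIn x y (q i) a : ℝ) ≤ CE.cntc Q x y (q i) a + Q.primeFactors.card := by
      exact_mod_cast h2
    have h3 := CE.primeFactors_card_le Q hqR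
    have h4 : Real.log Q ≤ Real.log y := Real.log_le_log (by exact_mod_cast hqR) hQle1
    have h5 : ((q i).totient : ℝ) ≤ (y : ℝ) ^ (1 - ε) :=
      le_trans (by exact_mod_cast Nat.totient_le (q i)) (hqle i hi)
    rw [abs_of_nonneg (mul_nonneg (Nat.cast_nonneg _) (by linarith))]
    calc ((q i).totient : ℝ) * ((primesIn x y (q i) a : ℝ) - CE.cntc Q x y (q i) a) ≤
        (y : ℝ) ^ (1 - ε) * (2 * Real.log y) := by
          apply mul_le_mul h5 (by linarith) (by linarith) (by positivity)
      _ = (2 * (y : ℝ) ^ (1 - ε) * Real.log y ^ 2) / Real.log y := by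
          field_simp
      _ ≤ (2 * (y : ℝ) ^ (1 - ε) * ((δ / 8) * (y : ℝ) ^ ε)) / Real.log y := by
          gcongr
      _ = (δ / 4) * ((y : ℝ) ^ (1 - ε) * (y : ℝ) ^ ε) / Real.log y := by ring
      _ = (δ / 4) * T := by
          rw [← Real.rpow_add hy0, hT]
          simp only [sub_add_cancel, Real.rpow_one]
          ring
  have hmain := CE.blocks (CE.Om Q) (fun i a => a % q i) f R
    (by
      intro l l' a b hll' hl' hab
      have : a ≡ b [MOD q l'] := hab
      exact this.of_dvd (hdv l l' hll' hl'))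
    (by
      intro l a b _ hab
      simp only [hf]
      have hab' : a % q l = b % q l := hab
      simp only [CE.cntc, hab'])
    (by
      intro l j c hlj hjR
      have h1 := CE.sumf Q x y (q l) (q j) c hqR (hdv l j hlj hjR) (hdv j R hjR le_rfl)
      have h2 := CE.sumf Q x y (q l) (q l) c hqR dvd_rfl (hdv l R (hlj.trans hjR) le_rfl)
      have h3 := h1.trans h2.symm
      have h4 : ∑ a ∈ (CE.Om Q).filter (fun a => a % q l = c),
          (((q j).totient : ℝ) * (CE.cntc Q x y (q j) a : ℝ)) =
          ∑ a ∈ (CE.Om Q).filter (fun a => a % q l = c),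
          (((q l).totient : ℝ) * (CE.cntc Q x y (q l) a : ℝ)) := by exact_mod_cast h3
      simp only [hf]
      rw [← Finset.sum_div, ← Finset.sum_div, h4])
    (44 / ε)
    (by
      intro l a hl _
      have hnn : 0 ≤ f l a := by simp only [hf]; positivity
      rw [abs_of_nonneg hnn]
      simp only [hf]
      rw [div_le_iff₀ hTpos]
      refine le_trans ?_ (CE.cnt_bt ε hε x y (q l) a (hqpos l hl) hy2 (hqle l hl))
      apply mul_le_mul_of_nonneg_left _ (Nat.cast_nonneg _)
      exact_mod_cast CE.cntc_le Q x y (q l) a)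
    (by
      rw [← Finset.card_pos, CE.card_Om Q hqR]
      exact Nat.totient_pos.2 hqR)
    (δ / 2) δ (by positivity) hδ m t ht htm B
    (fun j hj => Finset.mem_range.1 (Finset.mem_filter.1 hj).1)
    (by
      intro j hj
      obtain ⟨hjm, hj2⟩ := Finset.mem_filter.1 hj
      have hjm' := Finset.mem_range.1 hjm
      rw [CE.card_Om Q hqR]
      refine lt_of_lt_of_le hj2 ?_
      have : (Finset.range (q R)).filter (fun a => a.Coprime (q R) ∧
            ∃ i, t j ≤ i ∧ i ≤ t (j + 1) ∧
              δ * ((y : ℝ) / Real.log y) <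
                |((q i).totient : ℝ) * (primesIn x y (q i) a : ℝ) -
                  ((q (t j)).totient : ℝ) * (primesIn x y (q (t j)) a : ℝ)|) ⊆
          (CE.Om Q).filter (fun a => ∃ l, t j ≤ l ∧ l ≤ t (j + 1) ∧
            δ / 2 < |f l a - f (t j) a|) := by
        intro a ha
        simp only [Finset.mem_filter, CE.Om] at ha ⊢
        obtain ⟨ha1, ha2, i, hi1, hi2, hi3⟩ := ha
        refine ⟨⟨ha1, ha2⟩, i, hi1, hi2, ?_⟩
        have hiR : i ≤ R := hi2.trans (htR (j + 1) (by omega))
        have htjR : t j ≤ R := htR j (by omega)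
        have c1 := hcmp i hiR a
        have c2 := hcmp (t j) htjR a
        by_contra hcon
        rw [not_lt] at hcon
        have h6 : |T * f i a - T * f (t j) a| ≤ T * (δ / 2) := by
          rw [← mul_sub, abs_mul, abs_of_pos hTpos]
          exact mul_le_mul_of_nonneg_left hcon hTpos.le
        have h7 : |((q i).totient : ℝ) * (primesIn x y (q i) a : ℝ) -
                  ((q (t j)).totient : ℝ) * (primesIn x y (q (t j)) a : ℝ)| ≤ δ * T := by
          rw [abs_le] at c1 c2 h6 ⊢
          constructor <;> linarith [c1.1, c1.2, c2.1, c2.2, h6.1, h6.2]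
        linarith
      exact_mod_cast Finset.card_le_card this)
  rw [le_div_iff₀ (by positivity)]
  have h9 : (44 / ε) ^ 2 = 1936 / ε ^ 2 := by rw [div_pow]; norm_num
  rw [h9, le_div_iff₀ (by positivity)] at hmain
  nlinarith [hmain]

end Pool.Agent.Results.MP_a78e8f_nt.DivisorChains
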