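import Pool.Agent.W109.C.C6

/-!
The Elliott-Halberstam sum over ALL moduli `q ≤ x^θ`, every `θ < 14/27`, with the maximum over the
residues inside the sum, over any set of at most `x^η` residues outside few pairs
(modulus, residue), and with arbitrary powers of the logarithm.
-/

set_option autoImplicit false

namespace Pool.Agent.Results.MP_a78e8f_nt.MaxInsideAllModuli

open Finset

/-- the number of primes `p ≤ x` -/
noncomputable def primePi (x : ℕ) : ℕ := ((Icc 1 x).filter (fun p : ℕ => p.Prime)).card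

/-- the number of primes `p ≤ x` with `p ≡ a (mod q)` -/
noncomputable def primePiAP (x q a : ℕ) : ℕ :=
  ((Icc 1 x).filter (fun p : ℕ => p.Prime ∧ p ≡ a [MOD q])).card

/-- `π(x; q, a) - π(x)/φ(q)` -/
noncomputable def err (x q a : ℕ) : ℝ :=
  (primePiAP x q a : ℝ) - (primePi x : ℝ) / (Nat.totient q : ℝ)

/-- **The maximum inside the sum over all moduli up to `x^θ`, `θ < 14/27`.** -/
theorem result : ∀ θ : ℝ, θ < 14 / 27 → ∃ η : ℝ, 0 < η ∧ ∀ U : ℕ, ∃ (B : ℕ) (C : ℝ), 0 < C ∧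
    ∀ x : ℕ, 2 < x → ∃ Z : Finset ℕ,
    ∑ q ∈ Z, 1 / (Nat.totient q : ℝ) ≤ C / Real.log x ^ U ∧
    ∀ A : Finset ℕ, A ⊆ Icc 1 x → (A.card : ℝ) ≤ (x : ℝ) ^ η → ∃ X : ℕ → Finset ℕ,
    (∀ q, X q ⊆ A) ∧
    ∑ q ∈ Icc 1 ⌊(x : ℝ) ^ θ⌋₊, ((X q).card : ℝ) / (Nat.totient q : ℝ) ≤ C * Real.log x ^ B ∧
    (∀ q ∈ Icc 1 ⌊(x : ℝ) ^ θ⌋₊, q ∉ Z → ∀ a ∈ A, a ∉ X q → Nat.Coprime a q →
      |err x q a| ≤ C * (x / (q * Real.log x ^ U))) ∧
    (∀ α : ℕ → ℕ, ∑ q ∈ (Icc 1 ⌊(x : ℝ) ^ θ⌋₊).filter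
      (fun q => α q ∈ A ∧ α q ∉ X q ∧ Nat.Coprime (α q) q), |err x q (α q)| ≤
        C * (x / Real.log x ^ U)) :=
  fun θ hθ => Pool.Agent.W109.C.main θ hθ

end Pool.Agent.Results.MP_a78e8f_nt.MaxInsideAllModuli
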