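import Mathlib
import Pool.Agent.W218.PG.EH3

set_option autoImplicit false

/-!
Primes in a given residue class to large moduli: for a positive proportion of all moduli `q` in `(Q, 2Q]` the number of
primes `p ≤ K q` with `p ≡ a (mod q)` is at least `θ` times the expected number `π(K q) / φ(q)`, for every `θ < 1`, and
for all `K` between `log Q` and `Q / (log Q)^C`; so `q` may be as large as `x / log x`, where `x = K q`.
-/

namespace Pool.Agent.Results.MP_a78e8f_nt.PositiveProportionUpToOne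

open Finset

/-- the number of primes `p ≤ x` with `p ≡ a (mod q)` -/
def primesAP (x q : ℕ) (a : ℤ) : ℕ := ((Icc 1 x).filter (fun p : ℕ => p.Prime ∧ (p : ℤ) ≡ a [ZMOD q])).card

open Classical in
theorem result : ∃ C : ℕ, ∀ R : ℕ, ∀ θ : ℝ, θ < 1 → ∃ κ : ℝ, 0 < κ ∧ ∃ Q₀ : ℕ, ∀ Q : ℕ, Q₀ ≤ Q →
    ∀ a : ℤ, a ≠ 0 → a.natAbs ≤ Q → a.natAbs.primeFactors.card ≤ R →
    ∀ K : ℕ, Real.log Q ≤ K → K * Real.log Q ^ C ≤ Q →
    κ * Q ≤ (((Ioc Q (2 * Q)).filter (fun q : ℕ => IsCoprime a (q : ℤ) ∧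
      θ * ((Nat.primeCounting (K * q) : ℝ) / Nat.totient q) ≤ primesAP (K * q) q a ∧
      κ * (K / Real.log Q) ≤ primesAP (K * q) q a)).card : ℝ) :=
  Pool.Agent.W218.PG.ehMain

end Pool.Agent.Results.MP_a78e8f_nt.PositiveProportionUpToOne
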